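import Pool.Agent.V11189.KU.Cls
import Pool.Agent.V11187.MG.Rat

/-!
# Rational injectivity of assembly in K-theory, with coefficients in any ring, for a class of groups
closed under direct products

`kQ A` is the functor `G ↦ ℚ ⊗ K₁(A[G])`, `A` any ring, `T` is an arbitrary group (for `T = ℤ^k` the
group `K₁(A[G × T])` contains `K_{1-i}(A[G])`, `0 ≤ i ≤ k`), and
`α_b : H_{d(b)}(G; ℚ) → ℚ ⊗ K₁(A[G × T])`, `b ∈ B`, is any family of transformations natural in the
group `G`. `kerFam α G` is the kernel of the sum of the `α_b`.

`Cls` is the smallest class of groups which contains **all the groups `π / [R, R]`**, where `π` is any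
group which acts by automorphisms (with or without inversions) on a tree with finite vertex
stabilizers and `R` is any normal subgroup of `π` (nothing is assumed about `π / R`), and which is
closed under **direct products**, graph products over arbitrary graphs, semidirect products `N ⋊ Γ`
with a system of supports whose parts `N_σ ⋊ Γ_σ` are in the class (`σ` runs through the finite sets
without two elements `u ≠ v` such that `N` is the amalgamated product of `N_{V - u}` and `N_{V - v}`
along `N_{V - {u, v}}`; a case are the restricted wreath products `A ≀ Γ`, where the parts are `Γ` and
the finite powers of `A`), overgroups of finite index, and groups whose rational homology is jointly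
detected by homomorphisms to groups of the class (for instance retracts and extensions with locally
finite kernel).

* If `K` is any group such that the sum of the `α_b` is injective for all the groups `ℤ^n × K`, then
  it is injective for `G × K`, for every `G` in the class.
* If the sum of the `α_b` is injective for the free abelian groups `ℤ^n`, or if the degrees `d(b)` are
  distinct and no `α_b` vanishes on `ℤ^{d(b)}`, then it is injective for all the groups of the class.

The proof uses slant products with the cocycles of the second factor and the homology of the group
of the pairs `(m, γ)` with `∂ m = γ v₀ - v₀`.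
-/

namespace Pool.Agent.Results.MP_6374fb_al.ProductClosedClass

open CategoryTheory Pool.Agent.Y483 Pool.Agent.Y75.MQ Pool.Agent.V11187.MG Pool.Agent.V11189.KU

theorem result (A : Type) [Ring A] (T : Type) [Group T] {B : Type} {d : B → ℕ}
    (α : ∀ b : B, hq (d b) ⟶ timesF T ⋙ kQ A) :
    (∀ (K : Type) [Group K], (∀ n, kerFam α (GrpCat.of (Multiplicative (Fin n → ℤ) × K)) = ⊥) →
      ∀ G : GrpCat.{0}, Cls G → kerFam α (GrpCat.of (G × K)) = ⊥) ∧
    (((∀ n, kerFam α (zn n) = ⊥) ∨ (Function.Injective d ∧ ∀ b, (α b).app (zn (d b)) ≠ 0)) →
      ∀ G : GrpCat.{0}, Cls G → kerFam α G = ⊥) :=
  cls_main d α ((hasPT_kQ A).times T)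

end Pool.Agent.Results.MP_6374fb_al.ProductClosedClass
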